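import Pool.Agent.helper72.CT.D6
import Pool.Agent.helper56.CT.SpecG

/-!
# Module cd:G1a: antisymmetry of directed strands
-/

namespace CT
open Finset

/-- join along a list of pairs -/
def jn {D : Type} [DecidableEq D] : List (D × D) → (D → D) → (D → D)
  | [], e => e
  | p :: ps, e => jn ps (join e p.1 p.2)

/-- number of loops split off -/
def kn {D : Type} [DecidableEq D] : List (D × D) → (D → D) → ℕ
  | [], _ => 0
  | p :: ps, e => lp e p.1 p.2 + kn ps (join e p.1 p.2)

/-- the darts of a list of pairs -/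
def fl {D : Type} (ps : List (D × D)) : List D := ps.flatMap fun p => [p.1, p.2]

theorem join_ne {D : Type} [DecidableEq D] {e : D → D} (he : ∀ d, e (e d) = d) {x y z : D}
    (hxy : x ≠ y) (hzx : z ≠ x) (hzy : z ≠ y) (hz : e z ≠ z) : join e x y z ≠ z := by
  unfold join
  rw [if_neg (by rw [not_or]; exact ⟨hzx, hzy⟩)]
  by_cases h1 : e z = x
  · rw [if_pos h1]
    intro h2
    apply hxy
    rw [← h1, ← h2, he]
  rw [if_neg h1]
  by_cases h2 : e z = y
  · rw [if_pos h2]
    intro h3
    apply hxy
    rw [← h2, ← h3, he]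
  rw [if_neg h2]
  exact hz

theorem jn_perm {D : Type} [DecidableEq D] {ps qs : List (D × D)} (h : ps.Perm qs) :
    ∀ e : D → D, (∀ d, e (e d) = d) → (fl ps).Nodup → (∀ z ∈ fl ps, e z ≠ z) →
      jn ps e = jn qs e ∧ kn ps e = kn qs e := by
  induction h with
  | nil => intro e _ _ _; exact ⟨rfl, rfl⟩
  | cons p _ ih =>
    rename_i l₁ l₂ _
    intro e he hnd hact
    have hfl : fl (p :: l₁) = p.1 :: p.2 :: fl l₁ := rfl
    rw [hfl] at hnd hact
    have hne : p.1 ≠ p.2 := fun h => (List.nodup_cons.1 hnd).1 (by rw [h]; exact List.mem_cons_self)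
    have h1 := hact p.1 List.mem_cons_self
    have h2 := hact p.2 (List.mem_cons_of_mem _ List.mem_cons_self)
    obtain ⟨k1, k2⟩ := ih (join e p.1 p.2) (join_invol e he hne h1 h2)
      (List.nodup_cons.1 (List.nodup_cons.1 hnd).2).2 (by
        intro z hz
        refine join_ne he hne ?_ ?_ (hact z (List.mem_cons_of_mem _ (List.mem_cons_of_mem _ hz)))
        · rintro rfl
          exact (List.nodup_cons.1 hnd).1 (List.mem_cons_of_mem _ hz)
        · rintro rfl
          exact (List.nodup_cons.1 (List.nodup_cons.1 hnd).2).1 hz)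
    refine ⟨k1, ?_⟩
    show lp e p.1 p.2 + kn _ _ = lp e p.1 p.2 + kn _ _
    rw [k2]
  | swap p q l =>
    intro e he hnd hact
    have hfl : fl (q :: p :: l) = q.1 :: q.2 :: p.1 :: p.2 :: fl l := rfl
    rw [hfl] at hnd hact
    simp only [List.nodup_cons, List.mem_cons, not_or] at hnd
    obtain ⟨⟨n1, n2, n3, -⟩, ⟨n4, n5, -⟩, ⟨n6, -⟩, -, -⟩ := hnd
    have a1 := hact q.1 (by simp)
    have a2 := hact q.2 (by simp)
    have a3 := hact p.1 (by simp)
    have a4 := hact p.2 (by simp)
    have hc := join_comm e he n1 n2 n3 n4 n5 n6 a1 a2 a3 a4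
    have hl := lp_comm e he n1 n2 n3 n4 n5 n6 a1 a2 a3 a4
    constructor
    · show jn l (join (join e q.1 q.2) p.1 p.2) = jn l (join (join e p.1 p.2) q.1 q.2)
      rw [hc]
    · show lp e q.1 q.2 + (lp (join e q.1 q.2) p.1 p.2 + kn l (join (join e q.1 q.2) p.1 p.2)) =
        lp e p.1 p.2 + (lp (join e p.1 p.2) q.1 q.2 + kn l (join (join e p.1 p.2) q.1 q.2))
      rw [hc, ← add_assoc, ← add_assoc, hl]
  | trans h1 _ ih1 ih2 =>
    intro e he hnd hact
    have hp : (fl _).Perm (fl _) := h1.flatMap_right (fun p : D × D => [p.1, p.2])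
    obtain ⟨k1, k2⟩ := ih1 e he hnd hact
    obtain ⟨k3, k4⟩ := ih2 e he (hp.nodup_iff.1 hnd) (fun z hz => hact z (hp.mem_iff.2 hz))
    exact ⟨k1.trans k3, k2.trans k4⟩

/-- labels: conjugate along the strands -/
def Cj {D : Type} (A : Finset D) (e : D → D) (l : D → Bool × Bool) : Prop :=
  ∀ d ∈ A, l (e d) = cj (l d)

theorem cj_cj (a : Bool × Bool) : cj (cj a) = a := by
  unfold cj
  simp

theorem Cj_join {D : Type} [DecidableEq D] {A : Finset D} {e : D → D} {l : D → Bool × Bool}
    (hs : Cj A e l) {x y : D} (hx : x ∈ A) (hy : y ∈ A) (hxy : l y = cj (l x)) :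
    Cj (A \ {x, y}) (join e x y) l := by
  intro d hd
  rw [Finset.mem_sdiff, Finset.mem_insert, Finset.mem_singleton, not_or] at hd
  unfold join
  rw [if_neg (by rw [not_or]; exact hd.2)]
  by_cases h1 : e d = x
  · rw [if_pos h1, hs y hy, hxy, cj_cj, ← h1]
    exact hs d hd.1
  rw [if_neg h1]
  by_cases h2 : e d = y
  · rw [if_pos h2, hs x hx, ← hxy, ← h2]
    exact hs d hd.1
  rw [if_neg h2]
  exact hs d hd.1

set_option synthInstance.maxSize 1000 in
theorem key_cj : ∀ a b c d : Bool × Bool, (a ≠ b ∧ a ≠ c ∧ a ≠ d ∧ b ≠ c ∧ b ≠ d ∧ c ≠ d) →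
    ((a.1 = b.1 → b = cj a ∧ d = cj c) ∧ (a.1 ≠ b.1 → a.1 = c.1 → c = cj a ∧ d = cj b) ∧
      (a.1 ≠ b.1 → a.1 ≠ c.1 → d = cj a ∧ c = cj b)) := by
  decide

/-- the pairing of the types pairs conjugate labels -/
theorem tp_cj {V : Type} [DecidableEq V] (l : V × Fin 4 → Bool × Bool) (u : V)
    (h : Function.Injective fun i => l (u, i)) :
    l (u, (pr (tp (fun d => (l d).1) u)).2.1) = cj (l (u, (pr (tp (fun d => (l d).1) u)).1)) ∧
    l (u, (pr (tp (fun d => (l d).1) u)).2.2.2) =
      cj (l (u, (pr (tp (fun d => (l d).1) u)).2.2.1)) := by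
  have hne : ∀ i j : Fin 4, i ≠ j → l (u, i) ≠ l (u, j) := fun i j hij h' => hij (h h')
  obtain ⟨k1, k2, k3⟩ := key_cj (l (u, 0)) (l (u, 1)) (l (u, 2)) (l (u, 3))
    ⟨hne _ _ (by decide), hne _ _ (by decide), hne _ _ (by decide), hne _ _ (by decide),
      hne _ _ (by decide), hne _ _ (by decide)⟩
  unfold tp
  by_cases h1 : (l (u, 0)).1 = (l (u, 1)).1
  · rw [if_pos h1]
    exact k1 h1
  rw [if_neg h1]
  by_cases h2 : (l (u, 0)).1 = (l (u, 2)).1
  · rw [if_pos h2]
    exact k2 h1 h2
  rw [if_neg h2]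
  exact k3 h1 h2

/-- The induction, for the joins of `p, q` and `p', q'`. -/
theorem G1a_aux {V : Type} [DecidableEq V] (l : V × Fin 4 → Bool × Bool) (p p' q q' : V × Fin 4)
    (hnd4 : [p, p', q, q'].Nodup) (hp' : l p' = l p) (hq : l q = cj (l p)) (hq' : l q' = cj (l p))
    (L : List V) : ∀ e : V × Fin 4 → V × Fin 4, L.Nodup → (∀ z ∈ [p, p', q, q'], z.1 ∉ L) →
    Act (dts L.toFinset ∪ {p, p', q, q'}) e → Cj (dts L.toFinset ∪ {p, p', q, q'}) e l →
    (∀ u ∈ L, Function.Injective fun i => l (u, i)) →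
    (-1 : ℤ) ^ (lp e p q + lp (join e p q) p' q' +
        kl (fun d => (l d).1) L (join (join e p q) p' q')) =
      -(-1 : ℤ) ^ (lp e p q' + lp (join e p q') p' q +
        kl (fun d => (l d).1) L (join (join e p q') p' q)) := by
  simp only [List.nodup_cons, List.mem_cons, List.not_mem_nil, or_false, not_or, List.nodup_nil,
    and_true, not_false_eq_true] at hnd4
  obtain ⟨⟨n1, n2, n3⟩, ⟨n4, n5⟩, n6⟩ := hnd4
  induction L with
  | nil =>
    intro e _ _ hact hcj _
    have he := hact.1
    have hset : dts ([] : List V).toFinset ∪ {p, p', q, q'} = {p, p', q, q'} := by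
      simp [dts]
    rw [hset] at hact hcj
    have hmem : ∀ d : V × Fin 4, d ∈ ({p, p', q, q'} : Finset (V × Fin 4)) ↔
        d = p ∨ d = p' ∨ d = q ∨ d = q' := by
      intro d
      simp only [Finset.mem_insert, Finset.mem_singleton]
    have hcl : ∀ d, d ∈ ({p, p', q, q'} : Finset (V × Fin 4)) →
        e d ∈ ({p, p', q, q'} : Finset (V × Fin 4)) := by
      intro d hd
      rw [← hact.2, he]
      exact fun h => (hact.2 d).2 hd h.symm
    have hncj : ∀ a : Bool × Bool, a ≠ cj a := by decide
    have hep : e p = q ∨ e p = q' := by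
      have h1 : p ∈ ({p, p', q, q'} : Finset (V × Fin 4)) := (hmem _).2 (Or.inl rfl)
      rcases (hmem _).1 (hcl p h1) with h | h | h | h
      · exact absurd h ((hact.2 p).2 h1)
      · have := hcj p h1
        rw [h, hp'] at this
        exact absurd this (hncj _)
      · exact Or.inl h
      · exact Or.inr h
    have hp'mem : p' ∈ ({p, p', q, q'} : Finset (V × Fin 4)) := (hmem _).2 (Or.inr (Or.inl rfl))
    show (-1 : ℤ) ^ (lp e p q + lp (join e p q) p' q' + 0) =
      -(-1 : ℤ) ^ (lp e p q' + lp (join e p q') p' q + 0)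
    rcases hep with h | h
    · have hep' : e p' = q' := by
        rcases (hmem _).1 (hcl p' hp'mem) with h' | h' | h' | h'
        · exfalso
          apply n4
          rw [← h, ← h', he]
        · exact absurd h' ((hact.2 p').2 hp'mem)
        · exact absurd ((inj_of he).1 (h'.trans h.symm)) (Ne.symm n1)
        · exact h'
      have l1 : lp e p q = 1 := by unfold lp; rw [if_pos h]
      have l2 : lp (join e p q) p' q' = 1 := by
        unfold lp
        rw [if_pos]
        unfold join
        rw [if_neg (by rw [not_or]; exact ⟨Ne.symm n1, n4⟩),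
          if_neg (by rw [hep']; exact Ne.symm n3), if_neg (by rw [hep']; exact Ne.symm n6)]
        exact hep'
      have l3 : lp e p q' = 0 := by unfold lp; rw [if_neg (by rw [h]; exact n6)]
      have l4 : lp (join e p q') p' q = 1 := by
        unfold lp
        rw [if_pos]
        unfold join
        rw [if_neg (by rw [not_or]; exact ⟨Ne.symm n1, n5⟩),
          if_neg (by rw [hep']; exact Ne.symm n3), if_pos hep']
        exact h
      rw [l1, l2, l3, l4]
      norm_num
    · have hep' : e p' = q := by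
        rcases (hmem _).1 (hcl p' hp'mem) with h' | h' | h' | h'
        · exfalso
          apply n5
          rw [← h, ← h', he]
        · exact absurd h' ((hact.2 p').2 hp'mem)
        · exact h'
        · exact absurd ((inj_of he).1 (h'.trans h.symm)) (Ne.symm n1)
      have l1 : lp e p q' = 1 := by unfold lp; rw [if_pos h]
      have l2 : lp (join e p q') p' q = 1 := by
        unfold lp
        rw [if_pos]
        unfold join
        rw [if_neg (by rw [not_or]; exact ⟨Ne.symm n1, n5⟩),
          if_neg (by rw [hep']; exact Ne.symm n2), if_neg (by rw [hep']; exact n6)]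
        exact hep'
      have l3 : lp e p q = 0 := by unfold lp; rw [if_neg (by rw [h]; exact Ne.symm n6)]
      have l4 : lp (join e p q) p' q' = 1 := by
        unfold lp
        rw [if_pos]
        unfold join
        rw [if_neg (by rw [not_or]; exact ⟨Ne.symm n1, n4⟩),
          if_neg (by rw [hep']; exact Ne.symm n2), if_pos hep']
        exact h
      rw [l1, l2, l3, l4]
      norm_num
  | cons u L ih =>
    intro e hnd hz hact hcj hinj
    have he := hact.1
    have hu := (List.nodup_cons.1 hnd).1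
    obtain ⟨c1, c2⟩ := tp_cj l u (hinj u List.mem_cons_self)
    have htp : tp (fun d => (l d).1) u = tp (fun d => (l d).1) u := rfl
    generalize ht : tp (fun d => (l d).1) u = t at c1 c2
    have hpn := pr_nodup t
    simp only [List.nodup_cons, List.mem_cons, List.not_mem_nil, or_false, not_or, List.nodup_nil,
      and_true, not_false_eq_true] at hpn
    obtain ⟨⟨m1, m2, m3⟩, ⟨m4, m5⟩, m6⟩ := hpn
    have hne : ∀ i j : Fin 4, i ≠ j → ((u, i) : V × Fin 4) ≠ (u, j) :=
      fun i j hij h => hij (congrArg Prod.snd h)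
    have hzu : ∀ z ∈ [p, p', q, q'], ∀ i, z ≠ (u, i) := by
      intro z hz' i h
      apply hz z hz'
      rw [h]
      exact List.mem_cons_self
    have hmemu : ∀ i, (u, i) ∈ dts (u :: L).toFinset ∪ {p, p', q, q'} := fun i =>
      Finset.mem_union_left _ (by rw [mem_dts]; exact List.mem_cons_self)
    have zp : p ∈ [p, p', q, q'] := by simp
    have zp' : p' ∈ [p, p', q, q'] := by simp
    have zq : q ∈ [p, p', q, q'] := by simp
    have zq' : q' ∈ [p, p', q, q'] := by simp
    have hmemz : ∀ z ∈ [p, p', q, q'], z ∈ dts (u :: L).toFinset ∪ {p, p', q, q'} := fun z hz' =>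
      Finset.mem_union_right _ (by simpa using hz')
    -- activity after smoothing
    have b1 := Act_join hact (hmemu _) (hmemu _) (sm_ne t).2
    have mm3 : (u, (pr t).2.2.1) ∈ (dts (u :: L).toFinset ∪ {p, p', q, q'}) \
        {(u, (pr t).1), (u, (pr t).2.1)} := by
      rw [Finset.mem_sdiff, Finset.mem_insert, Finset.mem_singleton, not_or]
      exact ⟨hmemu _, hne _ _ (Ne.symm m2), hne _ _ (Ne.symm m4)⟩
    have mm4 : (u, (pr t).2.2.2) ∈ (dts (u :: L).toFinset ∪ {p, p', q, q'}) \
        {(u, (pr t).1), (u, (pr t).2.1)} := by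
      rw [Finset.mem_sdiff, Finset.mem_insert, Finset.mem_singleton, not_or]
      exact ⟨hmemu _, hne _ _ (Ne.symm m3), hne _ _ (Ne.symm m5)⟩
    have b2 := Act_join b1 mm3 mm4 (sm_ne t).1
    have cc1 := Cj_join hcj (hmemu _) (hmemu _) c1
    have cc2 := Cj_join cc1 mm3 mm4 c2
    have hset : (((dts (u :: L).toFinset ∪ {p, p', q, q'}) \ {(u, (pr t).1), (u, (pr t).2.1)}) \
        {(u, (pr t).2.2.1), (u, (pr t).2.2.2)}) = dts L.toFinset ∪ {p, p', q, q'} := by
      ext d
      simp only [Finset.mem_sdiff, Finset.mem_union, mem_dts, List.mem_cons, Finset.mem_insert,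
        Finset.mem_singleton, Prod.ext_iff, not_or, not_and]
      constructor
      · rintro ⟨⟨h0, h1, h1'⟩, h2, h2'⟩
        rcases h0 with (h0 | h0) | h0
        · rcases pr_cov t d.2 with h | h | h | h
          · exact absurd h (h1 h0)
          · exact absurd h (h1' h0)
          · exact absurd h (h2 h0)
          · exact absurd h (h2' h0)
        · exact Or.inl h0
        · exact Or.inr h0
      · intro h
        have hd : d.1 ≠ u := by
          intro h'
          rcases h with h | h
          · exact hu (h' ▸ h)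
          · have hd4 : d ∈ [p, p', q, q'] := by
              simp only [List.mem_cons, List.not_mem_nil, or_false, Prod.ext_iff]
              exact h
            apply hz d hd4
            rw [h']
            exact List.mem_cons_self
        exact ⟨⟨h.elim (fun h => Or.inl (Or.inr h)) Or.inr, fun h => absurd h hd,
          fun h => absurd h hd⟩, fun h => absurd h hd, fun h => absurd h hd⟩
    rw [hset] at b2 cc2
    have hih := ih (sm e u t) (List.nodup_cons.1 hnd).2
      (fun z hz' h => hz z hz' (List.mem_cons_of_mem _ h)) b2 cc2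
      (fun v hv => hinj v (List.mem_cons_of_mem _ hv))
    -- commutation
    have hcomm : ∀ x y x' y' : V × Fin 4, [x, y, x', y'].Nodup →
        (∀ z ∈ [x, y, x', y'], z ∈ [p, p', q, q']) →
        sm (join (join e x y) x' y') u t = join (join (sm e u t) x y) x' y' ∧
        lp e x y + lp (join e x y) x' y' + ls (join (join e x y) x' y') u t =
          ls e u t + lp (sm e u t) x y + lp (join (sm e u t) x y) x' y' := by
      intro x y x' y' hxn hxm
      have hperm : [(x, y), (x', y'), ((u, (pr t).1), (u, (pr t).2.1)),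
          ((u, (pr t).2.2.1), (u, (pr t).2.2.2))].Perm
          [((u, (pr t).1), (u, (pr t).2.1)), ((u, (pr t).2.2.1), (u, (pr t).2.2.2)), (x, y),
            (x', y')] :=
        List.perm_append_comm (l₁ := [(x, y), (x', y')])
          (l₂ := [((u, (pr t).1), (u, (pr t).2.1)), ((u, (pr t).2.2.1), (u, (pr t).2.2.2))])
      obtain ⟨r1, r2⟩ := jn_perm hperm e he (by
        show [x, y, x', y', (u, (pr t).1), (u, (pr t).2.1), (u, (pr t).2.2.1),
          (u, (pr t).2.2.2)].Nodup
        have hxu : ∀ z ∈ [x, y, x', y'], ∀ i, z ≠ (u, i) := fun z hz' => hzu z (hxm z hz')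
        have q1 := hxu x (by simp)
        have q2 := hxu y (by simp)
        have q3 := hxu x' (by simp)
        have q4 := hxu y' (by simp)
        simp only [List.nodup_cons, List.mem_cons, List.not_mem_nil, or_false, not_or,
          List.nodup_nil, and_true, not_false_eq_true] at hxn ⊢
        obtain ⟨⟨x1, x2, x3⟩, ⟨x4, x5⟩, x6⟩ := hxn
        exact ⟨⟨x1, x2, x3, q1 _, q1 _, q1 _, q1 _⟩, ⟨x4, x5, q2 _, q2 _, q2 _, q2 _⟩,
          ⟨x6, q3 _, q3 _, q3 _, q3 _⟩, ⟨q4 _, q4 _, q4 _, q4 _⟩, ⟨hne _ _ m1, hne _ _ m2, hne _ _ m3⟩,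
          ⟨hne _ _ m4, hne _ _ m5⟩, hne _ _ m6⟩) (by
        intro z hz'
        refine (hact.2 z).2 ?_
        have hz2 : z ∈ [x, y, x', y', (u, (pr t).1), (u, (pr t).2.1), (u, (pr t).2.2.1),
          (u, (pr t).2.2.2)] := hz'
        have hz3 : z ∈ [x, y, x', y'] ++ [(u, (pr t).1), (u, (pr t).2.1), (u, (pr t).2.2.1),
          (u, (pr t).2.2.2)] := hz2
        rw [List.mem_append] at hz3
        rcases hz3 with h | h
        · exact hmemz z (hxm z h)
        · simp only [List.mem_cons, List.not_mem_nil, or_false] at h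
          rcases h with rfl | rfl | rfl | rfl <;> exact hmemu _)
      refine ⟨r1, ?_⟩
      have r3 : lp e x y + (lp (join e x y) x' y' + (lp (join (join e x y) x' y')
          (u, (pr t).1) (u, (pr t).2.1) + (lp (join (join (join e x y) x' y') (u, (pr t).1)
          (u, (pr t).2.1)) (u, (pr t).2.2.1) (u, (pr t).2.2.2) + 0))) =
          lp e (u, (pr t).1) (u, (pr t).2.1) + (lp (join e (u, (pr t).1) (u, (pr t).2.1))
          (u, (pr t).2.2.1) (u, (pr t).2.2.2) + (lp (sm e u t) x y +
          (lp (join (sm e u t) x y) x' y' + 0))) := r2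
      unfold ls
      omega
    obtain ⟨g1, g2⟩ := hcomm p q p' q' (by
      simp only [List.nodup_cons, List.mem_cons, List.not_mem_nil, or_false, not_or,
        List.nodup_nil, and_true, not_false_eq_true]
      exact ⟨⟨n2, n1, n3⟩, ⟨Ne.symm n4, n6⟩, n5⟩) (by simp)
    obtain ⟨g3, g4⟩ := hcomm p q' p' q (by
      simp only [List.nodup_cons, List.mem_cons, List.not_mem_nil, or_false, not_or,
        List.nodup_nil, and_true, not_false_eq_true]
      exact ⟨⟨n3, n1, n2⟩, ⟨Ne.symm n5, Ne.symm n6⟩, n4⟩) (by simp)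
    have kl1 : ∀ E : V × Fin 4 → V × Fin 4, kl (fun d => (l d).1) (u :: L) E =
        ls E u t + kl (fun d => (l d).1) L (sm E u t) := by
      intro E
      show ls E u (tp (fun d => (l d).1) u) + kl (fun d => (l d).1) L
        (sm E u (tp (fun d => (l d).1) u)) = _
      rw [ht]
    rw [kl1, kl1, g1, g3, ← add_assoc, g2, ← add_assoc, g4]
    have f1 : ∀ a b c d : ℕ, (-1 : ℤ) ^ (a + b + c + d) = (-1) ^ a * (-1) ^ (b + c + d) := by
      intro a b c d
      rw [← pow_add]
      congr 1
      ring
    rw [f1, f1, hih, mul_neg]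

theorem G1a : G1a_stmt := by
  intro V _ L e l p p' q q' hnd hnd4 hz hact hcj hinj hp' hq hq'
  exact G1a_aux l p p' q q' hnd4 hp' hq hq' L e hnd hz hact hcj hinj

end CT
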