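import Pool.Agent.helper72.CT.D6
import Pool.Agent.helper56.CT.SpecG

/-!
# Module cd:G2: number of labellings with given types
-/

namespace CT
open Finset

/-- directions: opposite along the strands of `A`, `false` at the inactive darts -/
def Ori {D : Type} (A : Finset D) (e : D → D) (o : D → Bool) : Prop :=
  (∀ d ∈ A, o (e d) = !o d) ∧ ∀ d, d ∉ A → o d = false

/-- forget the values at `x`, `y` -/
def fgt {D : Type} [DecidableEq D] (o : D → Bool) (x y : D) : D → Bool :=
  Function.update (Function.update o x false) y false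

theorem fgt_x {D : Type} [DecidableEq D] (o : D → Bool) (x y : D) : fgt o x y x = false := by
  unfold fgt
  by_cases h : x = y
  · subst h
    rw [Function.update_self]
  · rw [Function.update_of_ne h, Function.update_self]

theorem fgt_y {D : Type} [DecidableEq D] (o : D → Bool) (x y : D) : fgt o x y y = false := by
  unfold fgt
  rw [Function.update_self]

theorem fgt_of {D : Type} [DecidableEq D] (o : D → Bool) {x y d : D} (h1 : d ≠ x) (h2 : d ≠ y) :
    fgt o x y d = o d := by
  unfold fgt
  rw [Function.update_of_ne h2, Function.update_of_ne h1]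

/-- prescribe the values at `x`, `y` -/
def prs {D : Type} [DecidableEq D] (o : D → Bool) (x y : D) (b c : Bool) : D → Bool :=
  Function.update (Function.update o x b) y c

theorem prs_x {D : Type} [DecidableEq D] (o : D → Bool) {x y : D} (h : x ≠ y) (b c : Bool) :
    prs o x y b c x = b := by
  unfold prs
  rw [Function.update_of_ne h, Function.update_self]

theorem prs_y {D : Type} [DecidableEq D] (o : D → Bool) (x y : D) (b c : Bool) :
    prs o x y b c y = c := by
  unfold prs
  rw [Function.update_self]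

theorem prs_of {D : Type} [DecidableEq D] (o : D → Bool) {x y d : D} (h1 : d ≠ x) (h2 : d ≠ y)
    (b c : Bool) : prs o x y b c d = o d := by
  unfold prs
  rw [Function.update_of_ne h2, Function.update_of_ne h1]

theorem join_of {D : Type} [DecidableEq D] {e : D → D} {x y d : D} (h1 : d ≠ x) (h2 : d ≠ y)
    (h3 : e d ≠ x) (h4 : e d ≠ y) : join e x y d = e d := by
  unfold join
  rw [if_neg (by rw [not_or]; exact ⟨h1, h2⟩), if_neg h3, if_neg h4]

open Classical in
/-- one join -/
theorem Ori_join {D : Type} [Fintype D] [DecidableEq D] {A : Finset D} {e : D → D}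
    (h : Act A e) {x y : D} (hx : x ∈ A) (hy : y ∈ A) (hxy : x ≠ y) (C : (D → Bool) → Prop)
    (hC : ∀ o o' : D → Bool, (∀ d, d ≠ x → d ≠ y → o d = o' d) → (C o ↔ C o')) :
    ((univ : Finset (D → Bool)).filter fun o => Ori A e o ∧ o x ≠ o y ∧ C o).card =
      2 ^ lp e x y *
        ((univ : Finset (D → Bool)).filter fun o => Ori (A \ {x, y}) (join e x y) o ∧ C o).card := by
  have he := h.1
  have hxa := (h.2 x).2 hx
  have hya := (h.2 y).2 hy
  have hmem : ∀ d, d ∈ A \ {x, y} ↔ d ∈ A ∧ d ≠ x ∧ d ≠ y := by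
    intro d
    rw [Finset.mem_sdiff, Finset.mem_insert, Finset.mem_singleton, not_or]
  have hCf : ∀ o, C (fgt o x y) ↔ C o := fun o => hC _ _ fun d h1 h2 => fgt_of o h1 h2
  have hCp : ∀ o b c, C (prs o x y b c) ↔ C o := fun o b c =>
    hC _ _ fun d h1 h2 => prs_of o h1 h2 b c
  have hB : ∀ a b : Bool, a ≠ b → (!a) = b := by decide
  by_cases hexy : e x = y
  · have heyx : e y = x := by rw [← hexy, he]
    have hlp : lp e x y = 1 := by unfold lp; rw [if_pos hexy]
    rw [hlp, pow_one, show (2 : ℕ) = (univ : Finset Bool).card by simp, ← Finset.card_product]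
    have hother : ∀ d, d ≠ x → d ≠ y → e d ≠ x ∧ e d ≠ y := by
      intro d h1 h2
      constructor
      · intro h3
        exact h2 ((inj_of he).1 (h3.trans heyx.symm))
      · intro h3
        exact h1 ((inj_of he).1 (h3.trans hexy.symm))
    refine Finset.card_bij' (fun o _ => (o x, fgt o x y)) (fun p _ => prs p.2 x y p.1 (!p.1))
      ?_ ?_ ?_ ?_
    · intro o ho
      rw [Finset.mem_filter] at ho
      obtain ⟨-, ⟨ho1, ho2⟩, ho3, ho4⟩ := ho
      rw [Finset.mem_product]
      refine ⟨Finset.mem_univ _, ?_⟩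
      rw [Finset.mem_filter]
      refine ⟨Finset.mem_univ _, ⟨?_, ?_⟩, (hCf o).2 ho4⟩
      · intro d hd
        obtain ⟨h1, h2, h3⟩ := (hmem d).1 hd
        obtain ⟨h4, h5⟩ := hother d h2 h3
        show fgt o x y (join e x y d) = !fgt o x y d
        rw [join_of h2 h3 h4 h5, fgt_of o h4 h5, fgt_of o h2 h3]
        exact ho1 d h1
      · intro d hd
        show fgt o x y d = false
        rw [hmem, not_and, not_and] at hd
        by_cases h1 : d = x
        · rw [h1]; exact fgt_x o x y
        by_cases h2 : d = y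
        · rw [h2]; exact fgt_y o x y
        rw [fgt_of o h1 h2]
        exact ho2 d fun h3 => hd h3 h1 h2
    · rintro ⟨b, o⟩ hp
      rw [Finset.mem_product, Finset.mem_filter] at hp
      obtain ⟨-, -, ⟨ho1, ho2⟩, ho4⟩ := hp
      rw [Finset.mem_filter]
      refine ⟨Finset.mem_univ _, ⟨?_, ?_⟩, ?_, (hCp o b _).2 ho4⟩
      · intro d hd
        show prs o x y b (!b) (e d) = !prs o x y b (!b) d
        by_cases h1 : d = x
        · rw [h1, hexy, prs_y, prs_x o hxy]
        by_cases h2 : d = y
        · rw [h2, heyx, prs_y, prs_x o hxy, Bool.not_not]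
        obtain ⟨h4, h5⟩ := hother d h1 h2
        rw [prs_of o h4 h5, prs_of o h1 h2, ← join_of h1 h2 h4 h5]
        exact ho1 d ((hmem d).2 ⟨hd, h1, h2⟩)
      · intro d hd
        have h1 : d ≠ x := fun h1 => hd (h1 ▸ hx)
        have h2 : d ≠ y := fun h1 => hd (h1 ▸ hy)
        show prs o x y b (!b) d = false
        rw [prs_of o h1 h2]
        exact ho2 d fun h3 => hd ((hmem d).1 h3).1
      · show prs o x y b (!b) x ≠ prs o x y b (!b) y
        rw [prs_y, prs_x o hxy]
        cases b <;> simp
    · intro o ho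
      rw [Finset.mem_filter] at ho
      obtain ⟨-, ⟨ho1, ho2⟩, ho3, ho4⟩ := ho
      funext d
      show prs (fgt o x y) x y (o x) (!o x) d = o d
      by_cases h1 : d = x
      · rw [h1, prs_x _ hxy]
      by_cases h2 : d = y
      · rw [h2, prs_y]
        exact hB _ _ ho3
      rw [prs_of _ h1 h2, fgt_of o h1 h2]
    · rintro ⟨b, o⟩ hp
      rw [Finset.mem_product, Finset.mem_filter] at hp
      obtain ⟨-, -, ⟨ho1, ho2⟩, ho4⟩ := hp
      refine Prod.ext (prs_x o hxy _ _) ?_
      funext d
      show fgt (prs o x y b (!b)) x y d = o d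
      by_cases h1 : d = x
      · rw [h1, fgt_x]
        exact (ho2 x fun h3 => ((hmem x).1 h3).2.1 rfl).symm
      by_cases h2 : d = y
      · rw [h2, fgt_y]
        exact (ho2 y fun h3 => ((hmem y).1 h3).2.2 rfl).symm
      rw [fgt_of _ h1 h2, prs_of o h1 h2]
  · have heyx : e y ≠ x := by
      intro h1
      apply hexy
      rw [← h1, he]
    have hlp : lp e x y = 0 := by unfold lp; rw [if_neg hexy]
    rw [hlp, pow_zero, one_mul]
    have jx : join e x y (e x) = e y := by
      unfold join
      rw [if_neg (by rw [not_or]; exact ⟨hxa, hexy⟩), if_pos (he x)]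
    have jy : join e x y (e y) = e x := by
      unfold join
      rw [if_neg (by rw [not_or]; exact ⟨heyx, hya⟩), if_neg (by rw [he]; exact hxy.symm),
        if_pos (he y)]
    have hexA : e x ∈ A := (h.2 _).1 (by rw [he]; exact hxa.symm)
    have heyA : e y ∈ A := (h.2 _).1 (by rw [he]; exact hya.symm)
    refine Finset.card_bij' (fun o _ => fgt o x y)
      (fun o _ => prs o x y (!o (e x)) (!o (e y))) ?_ ?_ ?_ ?_
    · intro o ho
      rw [Finset.mem_filter] at ho
      obtain ⟨-, ⟨ho1, ho2⟩, ho3, ho4⟩ := ho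
      rw [Finset.mem_filter]
      refine ⟨Finset.mem_univ _, ⟨?_, ?_⟩, (hCf o).2 ho4⟩
      · intro d hd
        obtain ⟨h1, h2, h3⟩ := (hmem d).1 hd
        by_cases h4 : e d = x
        · have h5 : d = e x := by rw [← h4, he]
          rw [h5, jx, fgt_of o heyx hya, fgt_of o hxa hexy, ho1 x hx, ho1 y hy, Bool.not_not]
          have := hB _ _ ho3
          rw [← this, Bool.not_not]
        by_cases h5 : e d = y
        · have h6 : d = e y := by rw [← h5, he]
          rw [h6, jy, fgt_of o heyx hya, fgt_of o hxa hexy, ho1 x hx, ho1 y hy, Bool.not_not]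
          exact hB _ _ ho3
        rw [join_of h2 h3 h4 h5, fgt_of o h4 h5, fgt_of o h2 h3]
        exact ho1 d h1
      · intro d hd
        rw [hmem, not_and, not_and] at hd
        by_cases h1 : d = x
        · rw [h1]; exact fgt_x o x y
        by_cases h2 : d = y
        · rw [h2]; exact fgt_y o x y
        rw [fgt_of o h1 h2]
        exact ho2 d fun h3 => hd h3 h1 h2
    · intro o hp
      rw [Finset.mem_filter] at hp
      obtain ⟨-, ⟨ho1, ho2⟩, ho4⟩ := hp
      rw [Finset.mem_filter]
      have hoxy : o (e y) = !o (e x) := by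
        rw [← jx]
        exact ho1 (e x) ((hmem _).2 ⟨hexA, hxa, hexy⟩)
      refine ⟨Finset.mem_univ _, ⟨?_, ?_⟩, ?_, (hCp o _ _).2 ho4⟩
      · intro d hd
        show prs o x y (!o (e x)) (!o (e y)) (e d) = !prs o x y (!o (e x)) (!o (e y)) d
        by_cases h1 : d = x
        · rw [h1, prs_of o hxa hexy, prs_x o hxy, Bool.not_not]
        by_cases h2 : d = y
        · rw [h2, prs_of o heyx hya, prs_y, Bool.not_not]
        by_cases h4 : e d = x
        · have h5 : d = e x := by rw [← h4, he]
          rw [h4, prs_x o hxy, h5, prs_of o hxa hexy]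
        by_cases h5 : e d = y
        · have h6 : d = e y := by rw [← h5, he]
          rw [h5, prs_y, h6, prs_of o heyx hya]
        rw [prs_of o h4 h5, prs_of o h1 h2, ← join_of h1 h2 h4 h5]
        exact ho1 d ((hmem d).2 ⟨hd, h1, h2⟩)
      · intro d hd
        have h1 : d ≠ x := fun h1 => hd (h1 ▸ hx)
        have h2 : d ≠ y := fun h1 => hd (h1 ▸ hy)
        rw [prs_of o h1 h2]
        exact ho2 d fun h3 => hd ((hmem d).1 h3).1
      · rw [prs_y, prs_x o hxy, hoxy]
        cases o (e x) <;> simp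
    · intro o ho
      rw [Finset.mem_filter] at ho
      obtain ⟨-, ⟨ho1, ho2⟩, ho3, ho4⟩ := ho
      funext d
      show prs (fgt o x y) x y (!fgt o x y (e x)) (!fgt o x y (e y)) d = o d
      rw [fgt_of o hxa hexy, fgt_of o heyx hya, ho1 x hx, ho1 y hy, Bool.not_not, Bool.not_not]
      by_cases h1 : d = x
      · rw [h1, prs_x _ hxy]
      by_cases h2 : d = y
      · rw [h2, prs_y]
      rw [prs_of _ h1 h2, fgt_of o h1 h2]
    · intro o hp
      rw [Finset.mem_filter] at hp
      obtain ⟨-, ⟨ho1, ho2⟩, ho4⟩ := hp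
      funext d
      show fgt (prs o x y (!o (e x)) (!o (e y))) x y d = o d
      by_cases h1 : d = x
      · rw [h1, fgt_x]
        exact (ho2 x fun h3 => ((hmem x).1 h3).2.1 rfl).symm
      by_cases h2 : d = y
      · rw [h2, fgt_y]
        exact (ho2 y fun h3 => ((hmem y).1 h3).2.2 rfl).symm
      rw [fgt_of _ h1 h2, prs_of o h1 h2]

/-- the conditions at the vertices of `L` -/
def OC {V : Type} (s : V × Fin 4 → Bool) (L : List V) (o : V × Fin 4 → Bool) : Prop :=
  ∀ u ∈ L, ∀ i j : Fin 4, i ≠ j → s (u, i) = s (u, j) → o (u, i) ≠ o (u, j)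

/-- types: constant along the strands at `A` -/
def Cst {D : Type} (A : Finset D) (e : D → D) (s : D → Bool) : Prop :=
  ∀ d ∈ A, s (e d) = s d

theorem Cst_join {D : Type} [DecidableEq D] {A : Finset D} {e : D → D} {s : D → Bool}
    (hs : Cst A e s) {x y : D} (hx : x ∈ A) (hy : y ∈ A) (hxy : s x = s y) :
    Cst (A \ {x, y}) (join e x y) s := by
  intro d hd
  rw [Finset.mem_sdiff, Finset.mem_insert, Finset.mem_singleton, not_or] at hd
  unfold join
  rw [if_neg (by rw [not_or]; exact hd.2)]
  by_cases h1 : e d = x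
  · rw [if_pos h1, hs y hy, ← hxy, ← h1]
    exact hs d hd.1
  rw [if_neg h1]
  by_cases h2 : e d = y
  · rw [if_pos h2, hs x hx, hxy, ← h2]
    exact hs d hd.1
  rw [if_neg h2]
  exact hs d hd.1

theorem tp_spec {V : Type} [DecidableEq V] (s : V × Fin 4 → Bool) (u : V)
    (h : ((univ : Finset (Fin 4)).filter fun i => s (u, i) = true).card = 2) :
    s (u, (pr (tp s u)).1) = s (u, (pr (tp s u)).2.1) ∧
    s (u, (pr (tp s u)).2.2.1) = s (u, (pr (tp s u)).2.2.2) ∧
    s (u, (pr (tp s u)).1) = !s (u, (pr (tp s u)).2.2.1) := by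
  have key : ∀ f : Fin 4 → Bool, ((univ : Finset (Fin 4)).filter fun i => f i = true).card = 2 →
      ∀ t : Fin 3, (t = if f 0 = f 1 then 0 else if f 0 = f 2 then 1 else 2) →
      f (pr t).1 = f (pr t).2.1 ∧ f (pr t).2.2.1 = f (pr t).2.2.2 ∧
        f (pr t).1 = !f (pr t).2.2.1 := by
    decide
  exact key (fun i => s (u, i)) h (tp s u) rfl

theorem OC_cons {V : Type} [DecidableEq V] (s : V × Fin 4 → Bool) (u : V) (L : List V)
    (h : ((univ : Finset (Fin 4)).filter fun i => s (u, i) = true).card = 2)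
    (o : V × Fin 4 → Bool) :
    OC s (u :: L) o ↔ o (u, (pr (tp s u)).1) ≠ o (u, (pr (tp s u)).2.1) ∧
      (o (u, (pr (tp s u)).2.2.1) ≠ o (u, (pr (tp s u)).2.2.2) ∧ OC s L o) := by
  obtain ⟨s1, s2, s3⟩ := tp_spec s u h
  generalize tp s u = t at s1 s2 s3
  have nb : ∀ a b : Bool, a = !b → a ≠ b := by decide
  have c13 : s (u, (pr t).1) ≠ s (u, (pr t).2.2.1) := nb _ _ s3
  have c14 : s (u, (pr t).1) ≠ s (u, (pr t).2.2.2) := by rw [← s2]; exact c13
  have c23 : s (u, (pr t).2.1) ≠ s (u, (pr t).2.2.1) := by rw [← s1]; exact c13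
  have c24 : s (u, (pr t).2.1) ≠ s (u, (pr t).2.2.2) := by rw [← s1]; exact c14
  constructor
  · intro h1
    refine ⟨h1 u List.mem_cons_self _ _ ?_ s1, h1 u List.mem_cons_self _ _ ?_ s2,
      fun v hv => h1 v (List.mem_cons_of_mem _ hv)⟩
    · exact fun h => (sm_ne t (u := u)).2 (by rw [h])
    · exact fun h => (sm_ne t (u := u)).1 (by rw [h])
  · rintro ⟨k1, k2, k3⟩ v hv
    rw [List.mem_cons] at hv
    rcases hv with rfl | hv
    · intro i j hij hs
      rcases pr_cov t i with hi | hi | hi | hi <;> rcases pr_cov t j with hj | hj | hj | hj <;>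
        rw [hi, hj] at hs hij ⊢ <;>
        first
          | exact absurd rfl hij
          | exact k1
          | exact k1.symm
          | exact k2
          | exact k2.symm
          | exact absurd hs c13
          | exact absurd hs c13.symm
          | exact absurd hs c14
          | exact absurd hs c14.symm
          | exact absurd hs c23
          | exact absurd hs c23.symm
          | exact absurd hs c24
          | exact absurd hs c24.symm
    · exact k3 v hv

open Classical in
/-- the number of directions -/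
theorem card_OC {V : Type} [Fintype V] [DecidableEq V] (s : V × Fin 4 → Bool) (L : List V) :
    ∀ e : V × Fin 4 → V × Fin 4, L.Nodup → Act (dts L.toFinset) e → Cst (dts L.toFinset) e s →
    (∀ u ∈ L, ((univ : Finset (Fin 4)).filter fun i => s (u, i) = true).card = 2) →
    ((univ : Finset (V × Fin 4 → Bool)).filter fun o =>
      Ori (dts L.toFinset) e o ∧ OC s L o).card = 2 ^ kl s L e := by
  induction L with
  | nil =>
    intro e _ _ _ _
    show _ = 2 ^ 0
    rw [pow_zero, Finset.card_eq_one]
    refine ⟨fun _ => false, ?_⟩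
    ext o
    rw [Finset.mem_filter, Finset.mem_singleton]
    constructor
    · rintro ⟨-, ⟨-, h⟩, -⟩
      funext d
      exact h d (by simp [dts])
    · rintro rfl
      refine ⟨Finset.mem_univ _, ⟨fun d hd => ?_, fun _ _ => rfl⟩, fun u hu => ?_⟩
      · simp [dts] at hd
      · simp at hu
  | cons u L ih =>
    intro e hnd hact hcst htwo
    have hu := (List.nodup_cons.1 hnd).1
    have h2 := htwo u List.mem_cons_self
    obtain ⟨s1, s2, s3⟩ := tp_spec s u h2
    set t := tp s u with ht
    have hm : ∀ i, (u, i) ∈ dts (u :: L).toFinset := fun i => by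
      rw [mem_dts]; exact List.mem_cons_self
    have hLu : ∀ v ∈ L, ∀ i j : Fin 4, ((v, i) : V × Fin 4) ≠ (u, j) := by
      intro v hv i j h
      apply hu
      rw [← show v = u from congrArg Prod.fst h]
      exact hv
    have hOCc : ∀ a b : Fin 4, ∀ o o' : V × Fin 4 → Bool,
        (∀ d, d ≠ (u, a) → d ≠ (u, b) → o d = o' d) → (OC s L o ↔ OC s L o') := by
      intro a b o o' h
      unfold OC
      constructor
      · intro h1 v hv i j hij hs
        rw [← h _ (hLu v hv _ _) (hLu v hv _ _), ← h _ (hLu v hv _ _) (hLu v hv _ _)]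
        exact h1 v hv i j hij hs
      · intro h1 v hv i j hij hs
        rw [h _ (hLu v hv _ _) (hLu v hv _ _), h _ (hLu v hv _ _) (hLu v hv _ _)]
        exact h1 v hv i j hij hs
    have hpn := pr_nodup t
    simp only [List.nodup_cons, List.mem_cons, List.not_mem_nil, or_false, not_or, List.nodup_nil,
      and_true, not_false_eq_true] at hpn
    obtain ⟨⟨n1, n2, n3⟩, ⟨n4, n5⟩, n6⟩ := hpn
    have hne : ∀ i j : Fin 4, i ≠ j → ((u, i) : V × Fin 4) ≠ (u, j) :=
      fun i j hij h => hij (congrArg Prod.snd h)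
    -- first join
    obtain ⟨C1, hC1⟩ : ∃ C : (V × Fin 4 → Bool) → Prop, ∀ o, C o ↔
      (o (u, (pr t).2.2.1) ≠ o (u, (pr t).2.2.2) ∧ OC s L o) := ⟨fun o => _, fun o => Iff.rfl⟩
    have j1 := Ori_join hact (hm _) (hm _) (sm_ne t).2 C1 (by
        intro o o' h
        rw [hC1, hC1, h (u, (pr t).2.2.1) (hne _ _ (Ne.symm n2)) (hne _ _ (Ne.symm n4)),
          h (u, (pr t).2.2.2) (hne _ _ (Ne.symm n3)) (hne _ _ (Ne.symm n5)), hOCc _ _ o o' h])
    have j2 := Ori_join (sm_act0 hact t) (sm_act1 t).1 (sm_act1 t).2 (sm_ne t).1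
      (fun o => OC s L o) (fun o o' h => hOCc _ _ o o' h)
    have hsm := sm_act hu hact t
    have hset : ((dts (u :: L).toFinset \ {(u, (pr t).1), (u, (pr t).2.1)}) \
      {(u, (pr t).2.2.1), (u, (pr t).2.2.2)}) = dts L.toFinset := by
      have h3 := Act_join (sm_act0 hact t) (sm_act1 t).1 (sm_act1 t).2 (sm_ne t).1
      ext d
      rw [← h3.2, ← hsm.2]
      rfl
    have hcst' : Cst (dts L.toFinset) (sm e u t) s := by
      rw [← hset]
      exact Cst_join (Cst_join hcst (hm _) (hm _) s1) (sm_act1 t).1 (sm_act1 t).2 s2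
    have hih := ih (sm e u t) (List.nodup_cons.1 hnd).2 hsm hcst'
      (fun v hv => htwo v (List.mem_cons_of_mem _ hv))
    rw [hset] at j2
    have hstart : ((univ : Finset (V × Fin 4 → Bool)).filter fun o =>
      Ori (dts (u :: L).toFinset) e o ∧ OC s (u :: L) o) =
      ((univ : Finset (V × Fin 4 → Bool)).filter fun o =>
        Ori (dts (u :: L).toFinset) e o ∧ o (u, (pr t).1) ≠ o (u, (pr t).2.1) ∧ C1 o) := by
      refine Finset.filter_congr fun o _ => ?_
      rw [OC_cons s u L h2 o, hC1]
    have hmid : ((univ : Finset (V × Fin 4 → Bool)).filter fun o =>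
      Ori (dts (u :: L).toFinset \ {(u, (pr t).1), (u, (pr t).2.1)})
        (join e (u, (pr t).1) (u, (pr t).2.1)) o ∧ C1 o) =
      ((univ : Finset (V × Fin 4 → Bool)).filter fun o =>
        Ori (dts (u :: L).toFinset \ {(u, (pr t).1), (u, (pr t).2.1)})
        (join e (u, (pr t).1) (u, (pr t).2.1)) o ∧
        o (u, (pr t).2.2.1) ≠ o (u, (pr t).2.2.2) ∧ OC s L o) := by
      refine Finset.filter_congr fun o _ => ?_
      rw [hC1]
    rw [hstart, j1, hmid, j2]
    show 2 ^ lp e (u, (pr t).1) (u, (pr t).2.1) *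
      (2 ^ lp (join e (u, (pr t).1) (u, (pr t).2.1)) (u, (pr t).2.2.1) (u, (pr t).2.2.2) *
      ((univ : Finset (V × Fin 4 → Bool)).filter fun o =>
        Ori (dts L.toFinset) (sm e u t) o ∧ OC s L o).card) = 2 ^ kl s (u :: L) e
    rw [hih, ← pow_add, ← pow_add]
    congr 1
    show _ = ls e u (tp s u) + kl s L (sm e u (tp s u))
    unfold ls
    rw [← ht]
    ring

theorem G2 : G2_stmt := by
  classical
  intro V _ _ L e s hnd hact hs
  obtain ⟨h1, h2, h3⟩ := hs
  rw [← card_OC s L e hnd hact (fun d hd => h1 d (mem_dts.1 hd)) h3]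
  refine Finset.card_bij' (fun l _ d => (l d).2) (fun o _ d => (s d, o d)) ?_ ?_ ?_ ?_
  · intro l hl
    rw [Finset.mem_filter] at hl ⊢
    obtain ⟨-, ⟨l1, l2, l3⟩, l4⟩ := hl
    refine ⟨Finset.mem_univ _, ⟨?_, ?_⟩, ?_⟩
    · intro d hd
      show (l (e d)).2 = !(l d).2
      rw [l1 d (mem_dts.1 hd)]
      rfl
    · intro d hd
      rw [mem_dts] at hd
      show (l d).2 = false
      rw [l2 d hd]
    · intro u hu i j hij hs' ho
      apply hij
      refine l3 u hu (Prod.ext ?_ ho)
      show (l (u, i)).1 = (l (u, j)).1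
      rw [l4, l4]
      exact hs'
  · intro o ho
    rw [Finset.mem_filter] at ho ⊢
    obtain ⟨-, ⟨o1, o2⟩, o3⟩ := ho
    refine ⟨Finset.mem_univ _, ⟨?_, ?_, ?_⟩, fun d => rfl⟩
    · intro d hd
      refine Prod.ext (h1 d hd) ?_
      exact o1 d (mem_dts.2 hd)
    · intro d hd
      refine Prod.ext (h2 d hd) ?_
      exact o2 d (fun h => hd (mem_dts.1 h))
    · intro u hu i j hij
      by_contra hne
      exact o3 u hu i j hne (congrArg Prod.fst hij) (congrArg Prod.snd hij)
  · intro l hl
    rw [Finset.mem_filter] at hl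
    obtain ⟨-, ⟨l1, l2, l3⟩, l4⟩ := hl
    funext d
    exact Prod.ext (l4 d).symm rfl
  · intro o _
    rfl

end CT
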