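import Pool.Agent.helper56.CT.SpecG

/-!
# Module cd:G4: functions constant on the components
-/

namespace CT
open Finset

/-- functions constant along the edges are functions on the set of components -/
def G4_equiv {V : Type} (F : SimpleGraph V) :
    {f : V → Bool // ∀ u w, F.Adj u w → f u = f w} ≃ (F.ConnectedComponent → Bool) where
  toFun f := SimpleGraph.ConnectedComponent.lift f.1 (by
    intro v w p _
    induction p with
    | nil => rfl
    | cons h _ ih =>
      rename_i hp
      exact (f.2 _ _ h).trans (ih hp.of_cons))
  invFun g := ⟨fun v => g (F.connectedComponentMk v), fun u w h => by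
    show g (F.connectedComponentMk u) = g (F.connectedComponentMk w)
    rw [SimpleGraph.ConnectedComponent.sound h.reachable]⟩
  left_inv f := by
    apply Subtype.ext
    funext v
    rfl
  right_inv g := by
    funext c
    refine SimpleGraph.ConnectedComponent.ind (fun v => ?_) c
    rfl

theorem G4 : G4_stmt := by
  classical
  intro V _ _ F
  rw [← Fintype.card_subtype, Fintype.card_congr (G4_equiv F), Fintype.card_fun, Fintype.card_bool]

end CT
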