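import Pool.Agent.helper56.CT.SpecA

/-!
# Module cd:D5: the bipartite class
-/

namespace CT
open Finset

/-- every active dart at `A` has its other end at `B` -/
def Bip {V : Type} (A B : List V) (e : V × Fin 4 → V × Fin 4) : Prop :=
  ∀ d, e d ≠ d → d.1 ∈ A → (e d).1 ∈ B

theorem Bip_join {V : Type} [DecidableEq V] {A B : List V} (hAB : ∀ v ∈ A, v ∉ B)
    {e : V × Fin 4 → V × Fin 4} (h : Bip A B e) {y z : V × Fin 4} (hy : y.1 ∈ A)
    (hya : e y ≠ y) : Bip A B (join e y z) := by
  intro d hd hdA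
  unfold join at hd ⊢
  by_cases h1 : d = y ∨ d = z
  · rw [if_pos h1] at hd
    exact absurd rfl hd
  rw [if_neg h1] at hd ⊢
  rw [not_or] at h1
  by_cases hfix : e d = d
  · rw [if_neg (by rw [hfix]; exact h1.1), if_neg (by rw [hfix]; exact h1.2)] at hd
    exact absurd hfix hd
  have hB := h d hfix hdA
  have h2 : e d ≠ y := by
    intro h2
    rw [h2] at hB
    exact hAB _ hy hB
  rw [if_neg h2]
  by_cases h3 : e d = z
  · rw [if_pos h3]
    exact h y hya hy
  · rw [if_neg h3]
    exact hB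

/-- joining two darts at `A` -/
theorem Bip_join' {V : Type} [DecidableEq V] {A B : List V} (hAB : ∀ v ∈ A, v ∉ B)
    {e : V × Fin 4 → V × Fin 4} (h : Bip A B e) {y z : V × Fin 4} (hy : y.1 ∈ A)
    (hz : z.1 ∈ A) : Bip A B (join e y z) := by
  intro d hd hdA
  unfold join at hd ⊢
  by_cases h1 : d = y ∨ d = z
  · rw [if_pos h1] at hd
    exact absurd rfl hd
  rw [if_neg h1] at hd ⊢
  rw [not_or] at h1
  by_cases hfix : e d = d
  · rw [if_neg (by rw [hfix]; exact h1.1), if_neg (by rw [hfix]; exact h1.2)] at hd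
    exact absurd hfix hd
  have hB := h d hfix hdA
  have h2 : e d ≠ y := by
    intro h2
    rw [h2] at hB
    exact hAB _ hy hB
  have h3 : e d ≠ z := by
    intro h3
    rw [h3] at hB
    exact hAB _ hz hB
  rw [if_neg h2, if_neg h3]
  exact hB

theorem mem_dts {V : Type} [DecidableEq V] {L : List V} {d : V × Fin 4} :
    d ∈ dts L.toFinset ↔ d.1 ∈ L := by
  unfold dts
  simp

/-- the activity condition, in terms of the list -/
theorem Act_iff {V : Type} [DecidableEq V] {L : List V} {e : V × Fin 4 → V × Fin 4} :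
    Act (dts L.toFinset) e ↔ (∀ d, e (e d) = d) ∧ ∀ d, e d ≠ d ↔ d.1 ∈ L := by
  unfold Act
  simp only [mem_dts]

theorem Act_perm {V : Type} [DecidableEq V] {L L' : List V} {e : V × Fin 4 → V × Fin 4}
    (hp : L.Perm L') (h : Act (dts L.toFinset) e) : Act (dts L'.toFinset) e := by
  rw [Act_iff] at h ⊢
  exact ⟨h.1, fun d => (h.2 d).trans hp.mem_iff⟩

/-- Joining along a list of pairs. -/
theorem Act_join {V : Type} [DecidableEq V] {A : Finset (V × Fin 4)} {e : V × Fin 4 → V × Fin 4}
    (h : Act A e) {x y : V × Fin 4} (hx : x ∈ A) (hy : y ∈ A) (hxy : x ≠ y) :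
    Act (A \ {x, y}) (join e x y) := by
  have := join_act h hx hy hxy
  have e1 : (A.erase x).erase y = A \ {x, y} := by
    ext z
    simp only [Finset.mem_erase, Finset.mem_sdiff, Finset.mem_insert, Finset.mem_singleton]
    tauto
  rwa [e1] at this

/-- the active darts after joining all the darts at `u` and `w` -/
theorem D5_act {V : Type} [DecidableEq V] {u w : V} {L : List V} {e : V × Fin 4 → V × Fin 4}
    (hnd : (u :: w :: L).Nodup) (h : Act (dts (u :: w :: L).toFinset) e) {i i1 i2 i3 j j1 j2 j3 : Fin 4}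
    (hi : [i, i1, i2, i3].Nodup) (hj : [j, j1, j2, j3].Nodup) {A B : List V}
    (hAB : ∀ v ∈ A, v ∉ B) (hu : u ∈ A) (hbip : Bip A B e) :
    Act (dts L.toFinset) (join3 (join e (u, i) (w, j)) (u, i1) (w, j1) (u, i2) (w, j2)
      (u, i3) (w, j3)) ∧
    Bip A B (join3 (join e (u, i) (w, j)) (u, i1) (w, j1) (u, i2) (w, j2)
      (u, i3) (w, j3)) := by
  have huw : u ≠ w := by
    intro h
    rw [h] at hnd
    simp at hnd
  have huL : u ∉ L := by
    intro h
    have := (List.nodup_cons.1 hnd).1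
    exact this (List.mem_cons_of_mem _ h)
  have hwL : w ∉ L := (List.nodup_cons.1 (List.nodup_cons.1 hnd).2).1
  have hm : ∀ d : V × Fin 4, d ∈ dts (u :: w :: L).toFinset ↔ (d.1 = u ∨ d.1 = w ∨ d.1 ∈ L) := by
    intro d
    rw [mem_dts, List.mem_cons, List.mem_cons]
  generalize dts (u :: w :: L).toFinset = D at hm h
  simp only [List.nodup_cons, List.mem_cons, List.not_mem_nil, or_false, not_or, List.nodup_nil,
    and_true, not_false_eq_true] at hi hj
  obtain ⟨⟨i01, i02, i03⟩, ⟨i12, i13⟩, i23⟩ := hi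
  obtain ⟨⟨j01, j02, j03⟩, ⟨j12, j13⟩, j23⟩ := hj
  have m0 : (u, i) ∈ D := (hm _).2 (Or.inl rfl)
  have a1 := Act_join h (x := (u, i)) (y := (w, j)) m0
    ((hm _).2 (Or.inr (Or.inl rfl))) (fun h => huw (congrArg Prod.fst h))
  have b1 := Bip_join hAB hbip (y := (u, i)) (z := (w, j)) hu ((h.2 _).2 m0)
  have m1 : (u, i1) ∈ D \ {(u, i), (w, j)} := by simp [hm, Prod.ext_iff, huw, Ne.symm i01]
  have b2 := Bip_join hAB b1 (y := (u, i1)) (z := (w, j1)) hu ((a1.2 _).2 m1)
  have a2 := Act_join a1 (x := (u, i1)) (y := (w, j1)) m1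
    (by simp [hm, Prod.ext_iff, huw.symm, Ne.symm j01])
    (fun h => huw (congrArg Prod.fst h))
  have m2 : (u, i2) ∈ (D \ {(u, i), (w, j)}) \ {(u, i1), (w, j1)} := by
    simp [hm, Prod.ext_iff, huw, Ne.symm i02, Ne.symm i12]
  have b3 := Bip_join hAB b2 (y := (u, i2)) (z := (w, j2)) hu ((a2.2 _).2 m2)
  have a3 := Act_join a2 (x := (u, i2)) (y := (w, j2)) m2
    (by simp [hm, Prod.ext_iff, huw.symm, Ne.symm j02, Ne.symm j12])
    (fun h => huw (congrArg Prod.fst h))
  have m3 : (u, i3) ∈ ((D \ {(u, i), (w, j)}) \ {(u, i1), (w, j1)}) \ {(u, i2), (w, j2)} := by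
    simp [hm, Prod.ext_iff, huw, Ne.symm i03, Ne.symm i13, Ne.symm i23]
  have b4 := Bip_join hAB b3 (y := (u, i3)) (z := (w, j3)) hu ((a3.2 _).2 m3)
  have a4 := Act_join a3 (x := (u, i3)) (y := (w, j3)) m3
    (by simp [hm, Prod.ext_iff, huw.symm, Ne.symm j03, Ne.symm j13, Ne.symm j23])
    (fun h => huw (congrArg Prod.fst h))
  have hcov : ∀ k : Fin 4, k = i ∨ k = i1 ∨ k = i2 ∨ k = i3 := by
    revert i01 i02 i03 i12 i13 i23
    clear * -
    revert i i1 i2 i3
    decide
  have hcov' : ∀ k : Fin 4, k = j ∨ k = j1 ∨ k = j2 ∨ k = j3 := by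
    revert j01 j02 j03 j12 j13 j23
    clear * -
    revert j j1 j2 j3
    decide
  have hset : ((((D \ {(u, i), (w, j)}) \ {(u, i1), (w, j1)}) \
      {(u, i2), (w, j2)}) \ {(u, i3), (w, j3)}) = dts L.toFinset := by
    ext d
    simp only [Finset.mem_sdiff, hm, mem_dts, Finset.mem_insert, Finset.mem_singleton,
      Prod.ext_iff, not_or, not_and]
    constructor
    · rintro ⟨⟨⟨⟨h0, h1, h1'⟩, h2, h2'⟩, h3, h3'⟩, h4, h4'⟩
      rcases h0 with h0 | h0 | h0
      · rcases hcov d.2 with h | h | h | h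
        · exact absurd h (h1 h0)
        · exact absurd h (h2 h0)
        · exact absurd h (h3 h0)
        · exact absurd h (h4 h0)
      · rcases hcov' d.2 with h | h | h | h
        · exact absurd h (h1' h0)
        · exact absurd h (h2' h0)
        · exact absurd h (h3' h0)
        · exact absurd h (h4' h0)
      · exact h0
    · intro h
      have hu : d.1 ≠ u := fun h' => huL (h' ▸ h)
      have hw : d.1 ≠ w := fun h' => hwL (h' ▸ h)
      exact ⟨⟨⟨⟨Or.inr (Or.inr h), fun h => absurd h hu, fun h => absurd h hw⟩,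
        fun h => absurd h hu, fun h => absurd h hw⟩, fun h => absurd h hu, fun h => absurd h hw⟩,
        fun h => absurd h hu, fun h => absurd h hw⟩
  rw [hset] at a4
  exact ⟨a4, b4⟩

theorem D5_perm {V : Type} [DecidableEq V] (u w : V) (A B : List V) (hw : w ∈ B) :
    (u :: (A ++ B)).Perm (u :: w :: (A ++ B.erase w)) :=
  ((List.perm_cons_erase hw).append_left A |>.trans List.perm_middle).cons u

theorem D5_aux (hJZ2 : JZ2_stmt) (hD3 : D3_stmt) (hD4 : D4_stmt) (V : Type) [Fintype V]
    [DecidableEq V] (n : ℕ) : ∀ (A B : List V) (e : V × Fin 4 → V × Fin 4),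
    (A ++ B).Nodup → Act (dts (A ++ B).toFinset) e → (∀ u ∈ A, ∀ i, (e (u, i)).1 ∈ B) →
    B.length = A.length + 1 → A.length = n + 2 → 32 ∣ Z (-4) (A ++ B) e := by
  induction n with
  | zero =>
    intro A B e hnd hact hAB hlen hn
    obtain ⟨u, A', rfl⟩ : ∃ u A', A = u :: A' := by
      cases A with
      | nil => simp at hn
      | cons u A' => exact ⟨u, A', rfl⟩
    have hA' : A'.length = 1 := by simpa using hn
    have hB3 : B.length = 3 := by omega
    rw [List.cons_append] at hnd hact ⊢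
    have hBnd : B.Nodup := (List.nodup_append.1 (List.nodup_cons.1 hnd).2).2.1
    obtain ⟨i, -, i1, -, hii, hw⟩ := Finset.exists_ne_map_eq_of_card_lt_of_maps_to
      (s := (Finset.univ : Finset (Fin 4))) (t := B.toFinset) (f := fun i => (e (u, i)).1)
      (by rw [List.toFinset_card_of_nodup hBnd, hB3, Finset.card_univ, Fintype.card_fin]; norm_num)
      (fun i _ => by
        rw [Finset.mem_coe, List.mem_toFinset]
        exact hAB u List.mem_cons_self i)
    have hwB : (e (u, i)).1 ∈ B := hAB u List.mem_cons_self i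
    have hperm := D5_perm u (e (u, i)).1 A' B hwB
    have hact' := Act_iff.1 hact
    rw [hJZ2 V (-4) _ _ e hperm hnd hact'.1 (fun v hv k => (hact'.2 (v, k)).2 hv)]
    refine hD4 V _ e u _ i i1 (e (u, i)).2 (e (u, i1)).2 (hperm.nodup_iff.1 hnd) hii ?_ ?_
      (Act_perm hperm hact) rfl ?_
    · intro h2
      have : e (u, i) = e (u, i1) := Prod.ext hw h2
      have h3 := (inj_of hact'.1).1 this
      exact hii (congrArg Prod.snd h3)
    · rw [List.length_append, List.length_erase_of_mem hwB]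
      omega
    · exact Prod.ext hw.symm rfl
  | succ n ih =>
    intro A B e hnd hact hAB hlen hn
    obtain ⟨u, A', rfl⟩ : ∃ u A', A = u :: A' := by
      cases A with
      | nil => simp at hn
      | cons u A' => exact ⟨u, A', rfl⟩
    have hA' : A'.length = n + 2 := by simpa using hn
    have hlen' : B.length = A'.length + 2 := by simpa using hlen
    rw [List.cons_append] at hnd hact ⊢
    have hwB : (e (u, 0)).1 ∈ B := hAB u List.mem_cons_self 0
    have hperm := D5_perm u (e (u, 0)).1 A' B hwB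
    have hact' := Act_iff.1 hact
    rw [hJZ2 V (-4) _ _ e hperm hnd hact'.1 (fun v hv k => (hact'.2 (v, k)).2 hv)]
    have hnd2 := hperm.nodup_iff.1 hnd
    have hact2 := Act_perm hperm hact
    -- disjointness
    have hdisj : ∀ v ∈ u :: A', v ∉ B := by
      intro v hv hvB
      rw [List.nodup_cons] at hnd
      rw [List.mem_cons] at hv
      rcases hv with rfl | hv
      · exact hnd.1 (List.mem_append_right _ hvB)
      · exact (List.nodup_append.1 hnd.2).2.2 v hv v hvB rfl
    have hbip : Bip (u :: A') B e := by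
      intro d _ hdA
      exact hAB d.1 hdA d.2
    set w := (e (u, 0)).1 with hw
    set j := (e (u, 0)).2 with hj
    have hex : ∀ j : Fin 4, ∃ j1 j2 j3 : Fin 4, [j, j1, j2, j3].Nodup := by decide
    have hstep : ∀ j1 j2 j3 : Fin 4, [j, j1, j2, j3].Nodup →
        32 ∣ T3 (-4) (A' ++ B.erase w) (join e (u, 0) (w, j)) (u, 1) (w, j1) (u, 2) (w, j2)
          (u, 3) (w, j3) := by
      intro j1 j2 j3 hjn
      obtain ⟨c1, c2⟩ := D5_act hnd2 hact2 (i := 0) (i1 := 1) (i2 := 2) (i3 := 3) (by decide) hjn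
        hdisj List.mem_cons_self hbip
      unfold T3
      refine Dvd.dvd.mul_left (ih A' (B.erase w) _ ?_ c1 ?_ ?_ hA') _
      · exact (List.nodup_cons.1 (List.nodup_cons.1 hnd2).2).2
      · intro v hv k
        have c1' := Act_iff.1 c1
        have hva := (c1'.2 (v, k)).2 (List.mem_append_left _ hv)
        have hB := c2 (v, k) hva (List.mem_cons_of_mem _ hv)
        have hact3 := (c1'.2 (join3 (join e (u, 0) (w, j)) (u, 1) (w, j1) (u, 2) (w, j2)
          (u, 3) (w, j3) (v, k))).1 (by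
            intro h
            rw [c1'.1] at h
            exact hva h.symm)
        rw [List.mem_append] at hact3
        rcases hact3 with h | h
        · exact absurd hB (hdisj _ (List.mem_cons_of_mem _ h))
        · exact h
      · rw [List.length_erase_of_mem hwB]
        omega
    obtain ⟨j1, j2, j3, hjn⟩ := hex j
    rw [hD3 V (A' ++ B.erase w) e u w 0 1 2 3 j j1 j2 j3 hnd2 (by decide) hjn hact2 rfl]
    have hp : ∀ a b c d : Fin 4, [a, b, c, d].Nodup → [a, b, d, c].Nodup ∧ [a, c, b, d].Nodup ∧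
        [a, c, d, b].Nodup ∧ [a, d, b, c].Nodup ∧ [a, d, c, b].Nodup := by decide
    obtain ⟨p1, p2, p3, p4, p5⟩ := hp j j1 j2 j3 hjn
    rw [dvd_neg]
    exact dvd_add (dvd_add (dvd_add (dvd_add (dvd_add (hstep _ _ _ hjn) (hstep _ _ _ p1))
      (hstep _ _ _ p2)) (hstep _ _ _ p3)) (hstep _ _ _ p4)) (hstep _ _ _ p5)

theorem D5 (hJZ2 : JZ2_stmt) (hD3 : D3_stmt) (hD4 : D4_stmt) : D5_stmt := by
  intro V _ _ A B e hnd hact hAB hlen h2
  exact D5_aux hJZ2 hD3 hD4 V (A.length - 2) A B e hnd hact hAB hlen (by omega)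

end CT
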