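import Pool.Agent.helper72.CT.D5

/-!
# Module cd:D6: at most 6 bad darts
-/

namespace CT
open Finset

theorem pr_nodup (t : Fin 3) : [(pr t).1, (pr t).2.1, (pr t).2.2.1, (pr t).2.2.2].Nodup := by
  revert t
  decide

theorem pr_cov (t : Fin 3) (k : Fin 4) :
    k = (pr t).1 ∨ k = (pr t).2.1 ∨ k = (pr t).2.2.1 ∨ k = (pr t).2.2.2 := by
  revert t k
  decide

/-- the active darts during the smoothing at `u` -/
theorem sm_act0 {V : Type} [DecidableEq V] {u : V} {L : List V} {e : V × Fin 4 → V × Fin 4}
    (h : Act (dts (u :: L).toFinset) e) (t : Fin 3) :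
    Act (dts (u :: L).toFinset \ {(u, (pr t).1), (u, (pr t).2.1)})
      (join e (u, (pr t).1) (u, (pr t).2.1)) := by
  have hn := pr_nodup t
  have hm : ∀ d : V × Fin 4, d ∈ dts (u :: L).toFinset ↔ (d.1 = u ∨ d.1 ∈ L) := by
    intro d
    rw [mem_dts, List.mem_cons]
  refine Act_join h ((hm _).2 (Or.inl rfl)) ((hm _).2 (Or.inl rfl)) ?_
  intro h
  have h' : (pr t).1 = (pr t).2.1 := congrArg Prod.snd h
  rw [h'] at hn
  simp at hn

theorem sm_act1 {V : Type} [DecidableEq V] {u : V} {L : List V} (t : Fin 3) :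
    (u, (pr t).2.2.1) ∈ dts (u :: L).toFinset \ {(u, (pr t).1), (u, (pr t).2.1)} ∧
    (u, (pr t).2.2.2) ∈ dts (u :: L).toFinset \ {(u, (pr t).1), (u, (pr t).2.1)} := by
  have hm : ∀ d : V × Fin 4, d ∈ dts (u :: L).toFinset ↔ (d.1 = u ∨ d.1 ∈ L) := by
    intro d
    rw [mem_dts, List.mem_cons]
  generalize dts (u :: L).toFinset = D at hm
  have hn := pr_nodup t
  simp only [List.nodup_cons, List.mem_cons, List.not_mem_nil, or_false, not_or, List.nodup_nil,
    and_true, not_false_eq_true] at hn
  obtain ⟨⟨n1, n2, n3⟩, ⟨n4, n5⟩, n6⟩ := hn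
  constructor
  · simp [hm, Prod.ext_iff, Ne.symm n2, Ne.symm n4]
  · simp [hm, Prod.ext_iff, Ne.symm n3, Ne.symm n5]

theorem sm_ne {V : Type} {u : V} (t : Fin 3) :
    ((u, (pr t).2.2.1) : V × Fin 4) ≠ (u, (pr t).2.2.2) ∧
    ((u, (pr t).1) : V × Fin 4) ≠ (u, (pr t).2.1) := by
  have hn := pr_nodup t
  simp only [List.nodup_cons, List.mem_cons, List.not_mem_nil, or_false, not_or, List.nodup_nil,
    and_true, not_false_eq_true] at hn
  obtain ⟨⟨n1, n2, n3⟩, ⟨n4, n5⟩, n6⟩ := hn
  exact ⟨fun h => n6 (congrArg Prod.snd h), fun h => n1 (congrArg Prod.snd h)⟩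

theorem sm_act {V : Type} [DecidableEq V] {u : V} {L : List V} {e : V × Fin 4 → V × Fin 4}
    (hu : u ∉ L) (h : Act (dts (u :: L).toFinset) e) (t : Fin 3) :
    Act (dts L.toFinset) (sm e u t) := by
  have a1 := sm_act0 h t
  have a2 := Act_join a1 (sm_act1 t).1 (sm_act1 t).2 (sm_ne t).1
  have hset : ((dts (u :: L).toFinset \ {(u, (pr t).1), (u, (pr t).2.1)}) \
      {(u, (pr t).2.2.1), (u, (pr t).2.2.2)}) = dts L.toFinset := by
    ext d
    simp only [Finset.mem_sdiff, mem_dts, List.mem_cons, Finset.mem_insert, Finset.mem_singleton,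
      Prod.ext_iff, not_or, not_and]
    constructor
    · rintro ⟨⟨h0, h1, h1'⟩, h2, h2'⟩
      rcases h0 with h0 | h0
      · rcases pr_cov t d.2 with h | h | h | h
        · exact absurd h (h1 h0)
        · exact absurd h (h1' h0)
        · exact absurd h (h2 h0)
        · exact absurd h (h2' h0)
      · exact h0
    · intro h
      have hd : d.1 ≠ u := fun h' => hu (h' ▸ h)
      exact ⟨⟨Or.inr h, fun h => absurd h hd, fun h => absurd h hd⟩, fun h => absurd h hd,
        fun h => absurd h hd⟩
  rw [hset] at a2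
  exact a2

/-- all strands from `A` go to `B`, except possibly the strand of `d0` -/
def Bip1 {V : Type} (A B : List V) (d0 : V × Fin 4) (e : V × Fin 4 → V × Fin 4) : Prop :=
  ∀ d, e d ≠ d → d.1 ∈ A → (e d).1 ∈ B ∨ e d = d0 ∨ d = d0

theorem Bip1_other {V : Type} [DecidableEq V] {A B : List V} (hAB : ∀ v ∈ A, v ∉ B)
    {e : V × Fin 4 → V × Fin 4} {d0 : V × Fin 4} (h : Bip1 A B d0 e) {x y : V × Fin 4}
    (hx : x.1 ∈ A) (hy : y.1 ∈ A) (hx0 : x ≠ d0) (hy0 : y ≠ d0) : Bip1 A B d0 (join e x y) := by
  intro d hd hdA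
  unfold join at hd ⊢
  by_cases h1 : d = x ∨ d = y
  · rw [if_pos h1] at hd
    exact absurd rfl hd
  rw [if_neg h1] at hd ⊢
  rw [not_or] at h1
  by_cases hfix : e d = d
  · rw [if_neg (by rw [hfix]; exact h1.1), if_neg (by rw [hfix]; exact h1.2)] at hd
    exact absurd hfix hd
  have hQ := h d hfix hdA
  by_cases h2 : e d = x
  · rcases hQ with h3 | h3 | h3
    · rw [h2] at h3
      exact absurd h3 (hAB _ hx)
    · exact absurd (h2.symm.trans h3) hx0
    · exact Or.inr (Or.inr h3)
  by_cases h3 : e d = y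
  · rcases hQ with h4 | h4 | h4
    · rw [h3] at h4
      exact absurd h4 (hAB _ hy)
    · exact absurd (h3.symm.trans h4) hy0
    · exact Or.inr (Or.inr h4)
  rw [if_neg h2, if_neg h3]
  exact hQ

theorem Bip1_self {V : Type} [DecidableEq V] {A B : List V} (hAB : ∀ v ∈ A, v ∉ B)
    {e : V × Fin 4 → V × Fin 4} (he : ∀ d, e (e d) = d) {d0 : V × Fin 4} (h : Bip1 A B d0 e)
    {y : V × Fin 4} (hy : y.1 ∈ A) (hya : e y ≠ y) (hy0 : y ≠ d0) : Bip A B (join e d0 y) := by
  intro d hd hdA
  unfold join at hd ⊢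
  by_cases h1 : d = d0 ∨ d = y
  · rw [if_pos h1] at hd
    exact absurd rfl hd
  rw [if_neg h1] at hd ⊢
  rw [not_or] at h1
  by_cases hfix : e d = d
  · rw [if_neg (by rw [hfix]; exact h1.1), if_neg (by rw [hfix]; exact h1.2)] at hd
    exact absurd hfix hd
  have hQ := h d hfix hdA
  by_cases h2 : e d = d0
  · rw [if_pos h2]
    rcases h y hya hy with h3 | h3 | h3
    · exact h3
    · exact absurd ((inj_of he).1 (h2.trans h3.symm)) h1.2
    · exact absurd h3 hy0
  rw [if_neg h2]
  by_cases h3 : e d = y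
  · rcases hQ with h4 | h4 | h4
    · rw [h3] at h4
      exact absurd h4 (hAB _ hy)
    · exact absurd h4 h2
    · exact absurd h4 h1.1
  rw [if_neg h3]
  rcases hQ with h4 | h4 | h4
  · exact h4
  · exact absurd h4 h2
  · exact absurd h4 h1.1

theorem Bip1_sm {V : Type} [DecidableEq V] {A B L : List V} (hAB : ∀ v ∈ A, v ∉ B)
    {e : V × Fin 4 → V × Fin 4} {a : V} {k : Fin 4} (ha : a ∈ A)
    (hact : Act (dts (a :: L).toFinset) e) (h : Bip1 A B (a, k) e) (t : Fin 3) :
    Bip A B (sm e a t) := by
  have hm : ∀ i, (a, i) ∈ dts (a :: L).toFinset := fun i => by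
    rw [mem_dts]; exact List.mem_cons_self
  have hn := pr_nodup t
  simp only [List.nodup_cons, List.mem_cons, List.not_mem_nil, or_false, not_or, List.nodup_nil,
    and_true, not_false_eq_true] at hn
  obtain ⟨⟨n1, n2, n3⟩, ⟨n4, n5⟩, n6⟩ := hn
  have a1 := sm_act0 hact t
  have hne : ∀ i j : Fin 4, i ≠ j → ((a, i) : V × Fin 4) ≠ (a, j) :=
    fun i j hij h => hij (congrArg Prod.snd h)
  unfold sm
  rcases pr_cov t k with hk | hk | hk | hk
  · refine Bip_join' hAB ?_ ha ha
    rw [← hk]
    exact Bip1_self hAB hact.1 h (y := (a, (pr t).2.1)) ha ((hact.2 _).2 (hm _))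
      (hne _ _ (by rw [hk]; exact Ne.symm n1))
  · refine Bip_join' hAB ?_ ha ha
    rw [← hk, join_symm e hact.1]
    exact Bip1_self hAB hact.1 h (y := (a, (pr t).1)) ha ((hact.2 _).2 (hm _))
      (hne _ _ (by rw [hk]; exact n1))
  · have h1 := Bip1_other hAB h (x := (a, (pr t).1)) (y := (a, (pr t).2.1)) ha ha
      (hne _ _ (by rw [hk]; exact n2)) (hne _ _ (by rw [hk]; exact n4))
    rw [← hk]
    exact Bip1_self hAB a1.1 h1 (y := (a, (pr t).2.2.2)) ha ((a1.2 _).2 (sm_act1 t).2)
      (hne _ _ (by rw [hk]; exact Ne.symm n6))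
  · have h1 := Bip1_other hAB h (x := (a, (pr t).1)) (y := (a, (pr t).2.1)) ha ha
      (hne _ _ (by rw [hk]; exact n3)) (hne _ _ (by rw [hk]; exact n5))
    rw [← hk, join_symm _ a1.1]
    exact Bip1_self hAB a1.1 h1 (y := (a, (pr t).2.2.1)) ha ((a1.2 _).2 (sm_act1 t).1)
      (hne _ _ (by rw [hk]; exact n6))

/-- bad darts of colour `k` -/
def badD {V : Type} [DecidableEq V] (L : List V) (c : V → Bool) (k : Bool)
    (e : V × Fin 4 → V × Fin 4) : Finset (V × Fin 4) :=
  (dts L.toFinset).filter fun d => c d.1 = k ∧ c (e d).1 = k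

theorem badD_even {V : Type} [DecidableEq V] {L : List V} {c : V → Bool} {k : Bool}
    {e : V × Fin 4 → V × Fin 4} (h : Act (dts L.toFinset) e) : Even (badD L c k e).card := by
  have hmem : ∀ d, d ∈ badD L c k e → e d ∈ badD L c k e := by
    intro d hd
    unfold badD at hd ⊢
    rw [Finset.mem_filter] at hd ⊢
    refine ⟨?_, hd.2.2, ?_⟩
    · rw [← h.2]
      rw [h.1]
      exact fun h' => (h.2 d).2 hd.1 h'.symm
    · rw [h.1]
      exact hd.2.1
  have hs : ∑ d ∈ badD L c k e, (1 : ZMod 2) = 0 := by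
    refine Finset.sum_involution (fun d _ => e d) ?_ ?_ ?_ ?_
    · intro d _
      decide
    · intro d hd _
      have : d ∈ dts L.toFinset := (Finset.mem_filter.1 hd).1
      exact (h.2 d).2 this
    · intro d hd
      exact hmem d hd
    · intro d _
      exact h.1 d
  rw [Finset.sum_const, nsmul_eq_mul, mul_one] at hs
  exact (ZMod.natCast_eq_zero_iff_even).1 hs

/-- good darts of colour `k` -/
def goodD {V : Type} [DecidableEq V] (L : List V) (c : V → Bool) (k : Bool)
    (e : V × Fin 4 → V × Fin 4) : Finset (V × Fin 4) :=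
  (dts L.toFinset).filter fun d => c d.1 = k ∧ c (e d).1 = !k

theorem goodD_card {V : Type} [DecidableEq V] {L : List V} {c : V → Bool}
    {e : V × Fin 4 → V × Fin 4} (h : Act (dts L.toFinset) e) :
    (goodD L c true e).card = (goodD L c false e).card := by
  have hmem : ∀ k d, d ∈ goodD L c k e → e d ∈ goodD L c (!k) e := by
    intro k d hd
    unfold goodD at hd ⊢
    rw [Finset.mem_filter] at hd ⊢
    refine ⟨?_, hd.2.2, ?_⟩
    · rw [← h.2]
      rw [h.1]
      exact fun h' => (h.2 d).2 hd.1 h'.symm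
    · rw [h.1, Bool.not_not]
      exact hd.2.1
  refine Finset.card_bij' (fun d _ => e d) (fun d _ => e d) ?_ ?_ ?_ ?_
  · intro d hd
    exact hmem true d hd
  · intro d hd
    exact hmem false d hd
  · intro d _
    exact h.1 d
  · intro d _
    exact h.1 d

theorem card_col {V : Type} [DecidableEq V] {L : List V} (hL : L.Nodup) (c : V → Bool) (k : Bool)
    (e : V × Fin 4 → V × Fin 4) :
    4 * (L.filter fun v => c v == k).length = (goodD L c k e).card + (badD L c k e).card := by
  have h1 : (dts (L.filter fun v => c v == k).toFinset).card =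
      4 * (L.filter fun v => c v == k).length := by
    unfold dts
    rw [Finset.card_product, List.toFinset_card_of_nodup (hL.filter _), Finset.card_univ,
      Fintype.card_fin, mul_comm]
  rw [← h1, ← Finset.card_union_of_disjoint]
  · congr 1
    ext d
    unfold goodD badD
    rw [Finset.mem_union, Finset.mem_filter, Finset.mem_filter, mem_dts, mem_dts, List.mem_filter]
    simp only [beq_iff_eq]
    cases c (e d).1 <;> cases k <;> simp
  · rw [Finset.disjoint_left]
    intro d h2 h3
    unfold goodD at h2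
    unfold badD at h3
    rw [Finset.mem_filter] at h2 h3
    have := h2.2.2.symm.trans h3.2.2
    cases k <;> simp at this

theorem col_perm {V : Type} (L : List V) (c : V → Bool) (k : Bool) :
    L.Perm ((L.filter fun v => c v == k) ++ (L.filter fun v => c v == !k)) := by
  have h := List.filter_append_perm (fun v => c v == k) L
  have e1 : (fun v => !(c v == k)) = fun v => c v == !k := by
    funext v
    cases c v <;> cases k <;> rfl
  rw [e1] at h
  exact h.symm

theorem D6_core (hJZ2 : JZ2_stmt) (hD5 : D5_stmt) {V : Type} [Fintype V] [DecidableEq V]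
    {L : List V} (hL : L.Nodup) {c : V → Bool} {k : Bool} {e : V × Fin 4 → V × Fin 4}
    (h : Act (dts L.toFinset) e)
    (hb : (badD L c k e).card ≤ 2)
    (hlen : ((badD L c k e).card = 0 ∧ 2 ≤ (L.filter fun v => c v == k).length ∧
      (L.filter fun v => c v == !k).length = (L.filter fun v => c v == k).length + 1) ∨
      (3 ≤ (L.filter fun v => c v == k).length ∧
      (L.filter fun v => c v == !k).length = (L.filter fun v => c v == k).length)) :
    32 ∣ Z (-4) L e := by
  have hperm := col_perm L c k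
  have hact := Act_iff.1 h
  rw [hJZ2 V (-4) _ _ e hperm hL hact.1 (fun v hv i => (hact.2 (v, i)).2 hv)]
  have hmA : ∀ v, v ∈ (L.filter fun v => c v == k) ↔ v ∈ L ∧ c v = k := by
    intro v
    rw [List.mem_filter, beq_iff_eq]
  have hmB : ∀ v, v ∈ (L.filter fun v => c v == !k) ↔ v ∈ L ∧ c v = !k := by
    intro v
    rw [List.mem_filter, beq_iff_eq]
  generalize (L.filter fun v => c v == k) = A at hperm hmA hlen ⊢
  generalize (L.filter fun v => c v == !k) = B at hperm hmB hlen ⊢
  have hnd := hperm.nodup_iff.1 hL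
  have hact2 := Act_perm hperm h
  have hAB : ∀ v ∈ A, v ∉ B := by
    intro v hv hv'
    have h1 := ((hmA v).1 hv).2
    have h2 := ((hmB v).1 hv').2
    rw [h1] at h2
    cases k <;> simp at h2
  have hEL : ∀ d, e d ≠ d → (e d).1 ∈ L := by
    intro d hd
    refine (hact.2 (e d)).1 ?_
    rw [hact.1]
    exact hd.symm
  rcases hlen with ⟨hb0, h2, h1⟩ | ⟨h3, h1⟩
  · refine hD5 V A B e hnd hact2 ?_ h1 h2
    intro u hu i
    have huA := (hmA u).1 hu
    have hne := (hact.2 (u, i)).2 huA.1
    rw [hmB]
    refine ⟨hEL _ hne, ?_⟩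
    by_contra hcon
    have hc : c (e (u, i)).1 = k := by
      revert hcon
      cases c (e (u, i)).1 <;> cases k <;> simp
    have : (u, i) ∈ badD L c k e := by
      unfold badD
      rw [Finset.mem_filter, mem_dts]
      exact ⟨huA.1, huA.2, hc⟩
    rw [Finset.card_eq_zero.1 hb0] at this
    exact absurd this (Finset.notMem_empty _)
  · -- the vertex of a bad dart
    have hex : ∃ a ∈ A, ∃ i, Bip1 A B (a, i) e := by
      have hgen : ∀ d, e d ≠ d → d.1 ∈ A → (e d).1 ∈ B ∨ d ∈ badD L c k e := by
        intro d hd hdA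
        have hdA' := (hmA _).1 hdA
        by_cases hc : c (e d).1 = k
        · right
          unfold badD
          rw [Finset.mem_filter, mem_dts]
          exact ⟨hdA'.1, hdA'.2, hc⟩
        · left
          rw [hmB]
          refine ⟨hEL _ hd, ?_⟩
          revert hc
          cases c (e d).1 <;> cases k <;> simp
      by_cases hemp : (badD L c k e).Nonempty
      · obtain ⟨d0, hd0⟩ := hemp
        have hd0' := hd0
        unfold badD at hd0'
        rw [Finset.mem_filter, mem_dts] at hd0'
        have hd0ne : e d0 ≠ d0 := (hact.2 d0).2 hd0'.1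
        have hed0 : e d0 ∈ badD L c k e := by
          unfold badD
          rw [Finset.mem_filter, mem_dts, hact.1]
          exact ⟨hEL _ hd0ne, hd0'.2.2, hd0'.2.1⟩
        have hall : ∀ d ∈ badD L c k e, d = d0 ∨ d = e d0 := by
          have hsub : ({d0, e d0} : Finset (V × Fin 4)) ⊆ badD L c k e := by
            intro d hd
            rw [Finset.mem_insert, Finset.mem_singleton] at hd
            rcases hd with rfl | rfl
            · exact hd0
            · exact hed0
          have heq := Finset.eq_of_subset_of_card_le hsub (by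
            rw [Finset.card_pair hd0ne.symm]
            exact hb)
          intro d hd
          rw [← heq, Finset.mem_insert, Finset.mem_singleton] at hd
          exact hd
        refine ⟨d0.1, (hmA _).2 ⟨hd0'.1, hd0'.2.1⟩, d0.2, ?_⟩
        intro d hd hdA
        rcases hgen d hd hdA with h4 | h4
        · exact Or.inl h4
        · rcases hall d h4 with h5 | h5
          · exact Or.inr (Or.inr h5)
          · right; left
            rw [h5, hact.1]
      · obtain ⟨a, ha⟩ : ∃ a, a ∈ A := by
          cases A with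
          | nil => simp at h3
          | cons a A' => exact ⟨a, List.mem_cons_self⟩
        refine ⟨a, ha, 0, ?_⟩
        intro d hd hdA
        rcases hgen d hd hdA with h4 | h4
        · exact Or.inl h4
        · exact absurd ⟨d, h4⟩ hemp
    obtain ⟨a, ha, i, hbip⟩ := hex
    have hperm2 : (A ++ B).Perm (a :: (A.erase a ++ B)) :=
      (List.perm_cons_erase ha).append_right B
    have hact2' := Act_iff.1 hact2
    rw [hJZ2 V (-4) _ _ e hperm2 hnd hact2'.1 (fun v hv i => (hact2'.2 (v, i)).2 hv)]
    have hnd3 := hperm2.nodup_iff.1 hnd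
    have hact3 := Act_perm hperm2 hact2
    show 32 ∣ ∑ t : Fin 3, (-4) ^ ls e a t * Z (-4) (A.erase a ++ B) (sm e a t)
    refine Finset.dvd_sum fun t _ => Dvd.dvd.mul_left ?_ _
    have hact4 := sm_act (List.nodup_cons.1 hnd3).1 hact3 t
    have hbip4 := Bip1_sm hAB ha hact3 hbip t
    refine hD5 V (A.erase a) B (sm e a t) (List.nodup_cons.1 hnd3).2 hact4 ?_ ?_ ?_
    · intro u hu j
      refine hbip4 (u, j) ?_ (List.mem_of_mem_erase hu)
      exact ((Act_iff.1 hact4).2 (u, j)).2 (List.mem_append_left _ hu)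
    · rw [List.length_erase_of_mem ha]
      omega
    · rw [List.length_erase_of_mem ha]
      omega

theorem D6 (hJZ2 : JZ2_stmt) (hD5 : D5_stmt) : D6_stmt := by
  intro V _ _ L e c hL h5 h hbad
  have k1 := card_col hL c true e
  have k2 := card_col hL c false e
  have k3 := goodD_card (c := c) h
  obtain ⟨b1, e1⟩ := badD_even (c := c) (k := true) h
  obtain ⟨b2, e2⟩ := badD_even (c := c) (k := false) h
  have hsum : (badD L c true e).card + (badD L c false e).card ≤ 6 := by
    refine le_trans (le_of_eq ?_) hbad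
    rw [← Finset.card_union_of_disjoint]
    · congr 1
      ext d
      unfold badD
      rw [Finset.mem_union, Finset.mem_filter, Finset.mem_filter, Finset.mem_filter]
      cases c d.1 <;> cases c (e d).1 <;> simp
    · rw [Finset.disjoint_left]
      intro d h2 h3
      unfold badD at h2 h3
      rw [Finset.mem_filter] at h2 h3
      have := h2.2.1.symm.trans h3.2.1
      simp at this
  have hlen := (col_perm L c true).length_eq
  rw [List.length_append] at hlen
  have ht : (fun v => c v == !true) = fun v => c v == false := rfl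
  have hf : (fun v => c v == !false) = fun v => c v == true := rfl
  rw [ht] at hlen
  -- cases
  rcases (show ((badD L c true e).card = 0 ∧ (badD L c true e).card ≤ 2 ∧
      2 ≤ (L.filter fun v => c v == true).length ∧
      (L.filter fun v => c v == false).length = (L.filter fun v => c v == true).length + 1) ∨
    ((badD L c false e).card = 0 ∧ (badD L c false e).card ≤ 2 ∧
      2 ≤ (L.filter fun v => c v == false).length ∧
      (L.filter fun v => c v == true).length = (L.filter fun v => c v == false).length + 1) ∨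
    ((badD L c true e).card ≤ 2 ∧ 3 ≤ (L.filter fun v => c v == true).length ∧
      (L.filter fun v => c v == false).length = (L.filter fun v => c v == true).length) by omega)
    with ⟨h0, h1, h2, h3⟩ | ⟨h0, h1, h2, h3⟩ | ⟨h1, h2, h3⟩
  · exact D6_core hJZ2 hD5 hL (c := c) (k := true) h h1 (Or.inl ⟨h0, h2, h3⟩)
  · exact D6_core hJZ2 hD5 hL (c := c) (k := false) h h1 (Or.inl ⟨h0, h2, h3⟩)
  · exact D6_core hJZ2 hD5 hL (c := c) (k := true) h h1 (Or.inr ⟨h2, h3⟩)

end CT
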