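import Pool.Agent.helper72.CT.D6

/-!
# Module cd:D7: the bound for a part `W` of the vertices
-/

namespace CT
open Finset

/-- smoothing at `u` does not change the strand of a dart which does not end at `u` -/
theorem sm_eq {V : Type} [DecidableEq V] {u : V} {e : V × Fin 4 → V × Fin 4} {d : V × Fin 4}
    (h1 : d.1 ≠ u) (h2 : (e d).1 ≠ u) (t : Fin 3) : sm e u t d = e d := by
  have hd : ∀ i, d ≠ (u, i) := fun i h => h1 (by rw [h])
  have he : ∀ i, e d ≠ (u, i) := fun i h => h2 (by rw [h])
  have e1 : join e (u, (pr t).1) (u, (pr t).2.1) d = e d := by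
    unfold join
    rw [if_neg (by rw [not_or]; exact ⟨hd _, hd _⟩), if_neg (he _), if_neg (he _)]
  unfold sm
  have e2 : ∀ f : V × Fin 4 → V × Fin 4, f d = e d →
      join f (u, (pr t).2.2.1) (u, (pr t).2.2.2) d = f d := by
    intro f hf
    unfold join
    rw [if_neg (by rw [not_or]; exact ⟨hd _, hd _⟩), if_neg (by rw [hf]; exact he _),
      if_neg (by rw [hf]; exact he _)]
  rw [e2 _ e1, e1]

theorem D7 (hD6 : D6_stmt) : D7_stmt := by
  intro V _ _ R
  induction R with
  | nil =>
    intro W e c hnd h5 hact hbad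
    rw [List.nil_append] at hnd hact ⊢
    refine hD6 V W e c hnd h5 hact ?_
    refine le_trans (Finset.card_le_card ?_) hbad
    intro d hd
    rw [Finset.mem_filter] at hd ⊢
    exact ⟨hd.1, Or.inr hd.2⟩
  | cons u R ih =>
    intro W e c hnd h5 hact hbad
    rw [List.cons_append] at hnd hact ⊢
    have hu := (List.nodup_cons.1 hnd).1
    have huW : u ∉ W := fun h => hu (List.mem_append_right _ h)
    show 32 ∣ ∑ t : Fin 3, (-4) ^ ls e u t * Z (-4) (R ++ W) (sm e u t)
    refine Finset.dvd_sum fun t _ => Dvd.dvd.mul_left ?_ _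
    refine ih W (sm e u t) c (List.nodup_cons.1 hnd).2 h5 (sm_act hu hact t) ?_
    refine le_trans (Finset.card_le_card ?_) hbad
    intro d hd
    rw [Finset.mem_filter, mem_dts] at hd ⊢
    refine ⟨hd.1, ?_⟩
    by_contra hcon
    rw [not_or, not_not] at hcon
    have e1 : sm e u t d = e d :=
      sm_eq (d := d) (u := u) (fun h : d.1 = u => huW (by rw [← h]; exact hd.1))
        (fun h : (e d).1 = u => huW (by rw [← h]; exact hcon.1)) t
    rw [e1] at hd
    rcases hd.2 with h | h
    · exact h hcon.1
    · exact hcon.2 h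

end CT
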